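import Pool.Agent.Results.MP_046d9d_an.ComplexRange
import Pool.Agent.Results.MP_046d9d_an.RealRange

/-!
# Polynomial numerical indices of complex Banach spaces of a prescribed dimension, and of the
equivalent norms of a real Banach space
-/

set_option autoImplicit false

namespace Pool.Agent.Results.MP_046d9d_an.DimensionsAndRenormings

open Pool.Agent.Results.MP_046d9d_an.ComplexRange

section Sum

variable {X Y : Type} [NormedAddCommGroup X] [NormedSpace ℂ X] [NormedAddCommGroup Y]
  [NormedSpace ℂ Y] {k : ℕ}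

/-- the dual norm of the maximum norm dominates the sum of the norms of the restrictions -/
lemma dual_sum_le (f : X × Y →L[ℂ] ℂ) :
    ‖f.comp (ContinuousLinearMap.inl ℂ X Y)‖ + ‖f.comp (ContinuousLinearMap.inr ℂ X Y)‖ ≤ ‖f‖ := by
  -- unimodular multipliers
  have hrot : ∀ v : ℂ, ∃ μ : ℂ, ‖μ‖ ≤ 1 ∧ μ * v = ‖v‖ := by
    intro v
    by_cases hv0 : v = 0
    · exact ⟨0, by simp, by simp [hv0]⟩
    · have hvn : (‖v‖ : ℂ) ≠ 0 := by exact_mod_cast norm_ne_zero_iff.2 hv0
      refine ⟨(starRingEnd ℂ v) / ‖v‖, ?_, ?_⟩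
      · rw [norm_div, Complex.norm_conj, Complex.norm_real, norm_norm,
          div_self (norm_ne_zero_iff.2 hv0)]
      · field_simp
        rw [mul_comm, Complex.mul_conj, Complex.normSq_eq_norm_sq]
        push_cast
        ring
  have hpt : ∀ (x : X) (y : Y), ‖x‖ ≤ 1 → ‖y‖ ≤ 1 →
      ‖f.comp (ContinuousLinearMap.inl ℂ X Y) x‖ + ‖f.comp (ContinuousLinearMap.inr ℂ X Y) y‖ ≤
        ‖f‖ := by
    intro x y hx hy
    obtain ⟨μ, hμ, hμ1⟩ := hrot (f.comp (ContinuousLinearMap.inl ℂ X Y) x)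
    obtain ⟨ν, hν, hν1⟩ := hrot (f.comp (ContinuousLinearMap.inr ℂ X Y) y)
    have h1 : f (μ • x, ν • y) =
        ((‖f.comp (ContinuousLinearMap.inl ℂ X Y) x‖ +
          ‖f.comp (ContinuousLinearMap.inr ℂ X Y) y‖ : ℝ) : ℂ) := by
      have e : (μ • x, ν • y) = μ • (ContinuousLinearMap.inl ℂ X Y) x +
          ν • (ContinuousLinearMap.inr ℂ X Y) y := by
        simp
      rw [e, map_add, map_smul, map_smul, Complex.ofReal_add, ← hμ1, ← hν1]
      rfl
    have h2 := f.le_opNorm (μ • x, ν • y)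
    rw [h1, Complex.norm_real, Real.norm_of_nonneg (by positivity)] at h2
    have h3 : ‖((μ • x, ν • y) : X × Y)‖ ≤ 1 := by
      rw [Prod.norm_def]
      apply max_le
      · calc ‖μ • x‖ = ‖μ‖ * ‖x‖ := norm_smul _ _
          _ ≤ 1 * 1 := by gcongr
          _ = 1 := one_mul 1
      · calc ‖ν • y‖ = ‖ν‖ * ‖y‖ := norm_smul _ _
          _ ≤ 1 * 1 := by gcongr
          _ = 1 := one_mul 1
    calc _ ≤ ‖f‖ * ‖((μ • x, ν • y) : X × Y)‖ := h2
      _ ≤ ‖f‖ * 1 := by gcongr
      _ = ‖f‖ := mul_one _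
  set a := f.comp (ContinuousLinearMap.inl ℂ X Y) with ha
  set b := f.comp (ContinuousLinearMap.inr ℂ X Y) with hb
  have h1 : ∀ y : Y, ‖y‖ ≤ 1 → ‖a‖ ≤ ‖f‖ - ‖b y‖ := by
    intro y hy
    have h0 : 0 ≤ ‖f‖ - ‖b y‖ := by
      have := hpt 0 y (by simp) hy
      simp only [map_zero, norm_zero, zero_add] at this
      linarith
    refine ContinuousLinearMap.opNorm_le_of_unit_norm h0 ?_
    intro x hx
    have := hpt x y hx.le hy
    linarith
  have h2 : ‖b‖ ≤ ‖f‖ - ‖a‖ := by
    have h0 : 0 ≤ ‖f‖ - ‖a‖ := by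
      have := h1 0 (by simp)
      simp only [map_zero, norm_zero, sub_zero] at this
      linarith
    refine ContinuousLinearMap.opNorm_le_of_unit_norm h0 ?_
    intro y hy
    have := h1 y hy.le
    linarith
  linarith

/-- restriction to the first summand -/
lemma index_prod_le_left [Nontrivial X] [Nontrivial Y] (hk : k ≠ 0) :
    polyIndex k (X × Y) ≤ polyIndex k X := by
  apply le_index
  intro A
  let B : ContinuousMultilinearMap ℂ (fun _ : Fin k => X × Y) (X × Y) :=
    (ContinuousLinearMap.inl ℂ X Y).compContinuousMultilinearMap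
      (A.compContinuousLinearMap (fun _ => ContinuousLinearMap.fst ℂ X Y))
  have hB : ∀ p : X × Y, B (fun _ => p) = (A (fun _ => p.1), 0) := fun p => rfl
  have h1 : polyNorm A ≤ polyNorm B := by
    apply polyNorm_le
    intro x hx
    have h := le_polyNorm B ((x, 0) : X × Y) (by simpa [Prod.norm_def] using hx)
    rw [hB] at h
    simpa [Prod.norm_def] using h
  have h2 : polyRadius B ≤ polyRadius A := by
    apply polyRadius_le _ _ (polyRadius_nonneg A)
    intro p f hp hf hfp
    set a := f.comp (ContinuousLinearMap.inl ℂ X Y) with ha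
    set b := f.comp (ContinuousLinearMap.inr ℂ X Y) with hb
    have hsum : ‖a‖ + ‖b‖ ≤ 1 := by
      have := dual_sum_le f
      rwa [hf] at this
    have hsplit : a p.1 + b p.2 = 1 := by
      rw [← hfp]
      have e : p = (ContinuousLinearMap.inl ℂ X Y) p.1 + (ContinuousLinearMap.inr ℂ X Y) p.2 := by
        simp
      conv_rhs => rw [e, map_add]
      rfl
    have hp1 : ‖p.1‖ ≤ 1 := by rw [← hp]; exact norm_fst_le p
    have hp2 : ‖p.2‖ ≤ 1 := by rw [← hp]; exact norm_snd_le p
    have ha1 : ‖a p.1‖ ≤ ‖a‖ := by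
      calc ‖a p.1‖ ≤ ‖a‖ * ‖p.1‖ := a.le_opNorm _
        _ ≤ ‖a‖ * 1 := by gcongr
        _ = ‖a‖ := mul_one _
    have hb1 : ‖b p.2‖ ≤ ‖b‖ := by
      calc ‖b p.2‖ ≤ ‖b‖ * ‖p.2‖ := b.le_opNorm _
        _ ≤ ‖b‖ * 1 := by gcongr
        _ = ‖b‖ := mul_one _
    have hsum' : ‖a‖ + ‖b‖ = 1 := by
      apply le_antisymm hsum
      calc (1 : ℝ) = ‖a p.1 + b p.2‖ := by rw [hsplit, norm_one]
        _ ≤ ‖a p.1‖ + ‖b p.2‖ := norm_add_le _ _
        _ ≤ ‖a‖ + ‖b‖ := add_le_add ha1 hb1
    obtain ⟨h3, -⟩ := complex_split _ _ _ _ ha1 hb1 hsum' hsplit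
    have hfB : f (B (fun _ => p)) = a (A (fun _ => p.1)) := by
      rw [hB]
      rfl
    rw [hfB]
    rcases (norm_nonneg a).eq_or_lt with h0 | h0
    · have : a = 0 := norm_eq_zero.1 h0.symm
      rw [this]
      simpa using polyRadius_nonneg A
    · -- the point has norm one
      have hx1 : ‖p.1‖ = 1 := by
        apply le_antisymm hp1
        have h4 := a.le_opNorm p.1
        rw [h3, Complex.norm_real, Real.norm_of_nonneg h0.le] at h4
        by_contra hlt
        push Not at hlt
        nlinarith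
      have haC : (‖a‖ : ℂ) ≠ 0 := by exact_mod_cast h0.ne'
      have h5 := support_le A p.1 ((‖a‖ : ℂ)⁻¹ • a) (by
        rw [norm_smul, norm_inv, Complex.norm_real, norm_norm, inv_mul_cancel₀ h0.ne']) (by
        rw [smul_apply, h3, hx1, smul_eq_mul, inv_mul_cancel₀ haC]
        simp) hk
      rw [hx1, one_pow, mul_one, smul_apply, norm_smul, norm_inv,
        Complex.norm_real, norm_norm, inv_mul_le_iff₀ h0] at h5
      refine h5.trans ?_
      have ha2 : ‖a‖ ≤ 1 := by linarith [norm_nonneg b]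
      calc ‖a‖ * polyRadius A ≤ 1 * polyRadius A :=
            mul_le_mul_of_nonneg_right ha2 (polyRadius_nonneg A)
        _ = polyRadius A := one_mul _
  calc polyIndex k (X × Y) * polyNorm A ≤ polyIndex k (X × Y) * polyNorm B :=
        mul_le_mul_of_nonneg_left h1 index_nonneg
    _ ≤ polyRadius B := index_mul_le B
    _ ≤ polyRadius A := h2

/-- isometric spaces have the same index -/
lemma index_congr [Nontrivial X] [Nontrivial Y] (hk : k ≠ 0) (e : X ≃ₗᵢ[ℂ] Y) :
    polyIndex k X ≤ polyIndex k Y := by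
  have h := index_compare (X := X) (Y := Y) hk e.toLinearEquiv 0 le_rfl
    (fun x => by simp) (fun x => by simp) (by
      intro x f hx hf hfx
      refine ⟨f.comp (e.symm.toContinuousLinearEquiv : Y →L[ℂ] X), ?_, ?_, ?_⟩
      · refine (ContinuousLinearMap.opNorm_comp_le _ _).trans ?_
        rw [hf, one_mul]
        refine ContinuousLinearMap.opNorm_le_bound _ zero_le_one ?_
        intro y
        simp
      · simp [hfx, hx]
      · intro u
        simp)
  simpa using h

lemma index_prod_comm [Nontrivial X] [Nontrivial Y] (hk : k ≠ 0) :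
    polyIndex k (Y × X) ≤ polyIndex k (X × Y) := by
  apply index_congr hk
  exact LinearIsometryEquiv.mk (LinearEquiv.prodComm ℂ Y X) (by
    rintro ⟨y, x⟩
    simp [Prod.norm_def, max_comm])

/-- the estimate from below for the first component -/
lemma radius_ge_left [Nontrivial X]
    (B : ContinuousMultilinearMap ℂ (fun _ : Fin k => X × Y) (X × Y)) (p : X × Y)
    (hp : ‖p‖ ≤ 1) : polyIndex k X * ‖(B (fun _ => p)).1‖ ≤ polyRadius B := by
  -- points whose first coordinate has norm one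
  have hunit : ∀ (x : X) (y : Y), ‖x‖ = 1 → ‖y‖ ≤ 1 →
      polyIndex k X * ‖(B (fun _ => (x, y))).1‖ ≤ polyRadius B := by
    intro x y hx hy
    obtain ⟨f, hf, hfx⟩ := exists_dual_vector ℂ x (by rw [hx]; norm_num)
    rw [hx] at hfx
    let L : X →L[ℂ] X × Y := (ContinuousLinearMap.id ℂ X).prod (f.smulRight y)
    let A : ContinuousMultilinearMap ℂ (fun _ : Fin k => X) X :=
      (ContinuousLinearMap.fst ℂ X Y).compContinuousMultilinearMap
        (B.compContinuousLinearMap (fun _ => L))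
    have hA : ∀ u : X, A (fun _ => u) = (B (fun _ => (u, f u • y))).1 := fun u => rfl
    have h1 : polyRadius A ≤ polyRadius B := by
      apply polyRadius_le _ _ (polyRadius_nonneg B)
      intro u g hu hg hgu
      have hn : ‖((u, f u • y) : X × Y)‖ = 1 := by
        rw [Prod.norm_def]
        have : ‖f u • y‖ ≤ 1 := by
          rw [norm_smul]
          have h2 : ‖f u‖ ≤ 1 := by
            have := f.le_opNorm u
            rwa [hf, hu, one_mul] at this
          calc ‖f u‖ * ‖y‖ ≤ 1 * 1 := by gcongr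
            _ = 1 := one_mul 1
        rw [hu]
        exact max_eq_left this
      have hgn : ‖g.comp (ContinuousLinearMap.fst ℂ X Y)‖ = 1 := by
        apply le_antisymm
        · refine (ContinuousLinearMap.opNorm_comp_le _ _).trans ?_
          rw [hg, one_mul]
          exact ContinuousLinearMap.norm_fst_le ℂ X Y
        · have h3 := (g.comp (ContinuousLinearMap.fst ℂ X Y)).le_opNorm (u, f u • y)
          rw [hn, mul_one] at h3
          have h4 : (g.comp (ContinuousLinearMap.fst ℂ X Y)) (u, f u • y) = 1 := hgu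
          rwa [h4, norm_one] at h3
      have h5 := le_polyRadius B (u, f u • y) (g.comp (ContinuousLinearMap.fst ℂ X Y)) hn hgn hgu
      rw [hA]
      exact h5
    have h2 : ‖(B (fun _ => (x, y))).1‖ ≤ polyNorm A := by
      have h3 := le_polyNorm A x hx.le
      rw [hA, hfx] at h3
      simpa using h3
    calc polyIndex k X * ‖(B (fun _ => (x, y))).1‖ ≤ polyIndex k X * polyNorm A :=
          mul_le_mul_of_nonneg_left h2 index_nonneg
      _ ≤ polyRadius A := index_mul_le A
      _ ≤ polyRadius B := h1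
  -- maximum principle in the first coordinate
  obtain ⟨x, y⟩ := p
  have hx : ‖x‖ ≤ 1 := (norm_fst_le ((x, y) : X × Y)).trans hp
  have hy : ‖y‖ ≤ 1 := (norm_snd_le ((x, y) : X × Y)).trans hp
  obtain ⟨u, z₀, hu, hz₀, hxu⟩ : ∃ (u : X) (z : ℂ), ‖u‖ = 1 ∧ ‖z‖ ≤ 1 ∧ x = z • u := by
    by_cases h0 : x = 0
    · obtain ⟨v, hv⟩ := exists_ne (0 : X)
      refine ⟨((‖v‖⁻¹ : ℝ) : ℂ) • v, 0, ?_, by simp, by simp [h0]⟩
      rw [norm_smul, Complex.norm_real, norm_inv, norm_norm,
        inv_mul_cancel₀ (norm_ne_zero_iff.2 hv)]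
    · have hn := norm_ne_zero_iff.2 h0
      have hnC : (‖x‖ : ℂ) ≠ 0 := by exact_mod_cast hn
      refine ⟨((‖x‖⁻¹ : ℝ) : ℂ) • x, ‖x‖, ?_, ?_, ?_⟩
      · rw [norm_smul, Complex.norm_real, norm_inv, norm_norm, inv_mul_cancel₀ hn]
      · rwa [Complex.norm_real, norm_norm]
      · rw [smul_smul]
        push_cast
        rw [mul_inv_cancel₀ hnC, one_smul]
  let F : ℂ → X := fun z => ((polyIndex k X : ℝ) : ℂ) • (B (fun _ => (z • u, y))).1
  have hFd : Differentiable ℂ F := by
    have h1 : Differentiable ℂ (fun v : X × Y => B (fun _ => v)) := by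
      have h1 : Differentiable ℂ B := fun v => (B.hasFDerivAt v).differentiableAt
      exact h1.comp (differentiable_pi.2 fun _ => differentiable_id)
    have h2 : Differentiable ℂ (fun z : ℂ => ((z • u, y) : X × Y)) :=
      (differentiable_id.smul_const u).prodMk (differentiable_const y)
    exact (differentiable_fst.comp (h1.comp h2)).const_smul _
  have hFn : ∀ z, ‖F z‖ = polyIndex k X * ‖(B (fun _ => (z • u, y))).1‖ := by
    intro z
    change ‖((polyIndex k X : ℝ) : ℂ) • (B (fun _ => (z • u, y))).1‖ = _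
    rw [norm_smul, Complex.norm_real, Real.norm_of_nonneg index_nonneg]
  have hmax : ‖F z₀‖ ≤ polyRadius B := by
    apply Complex.norm_le_of_forall_mem_frontier_norm_le (U := Metric.ball (0 : ℂ) 1)
      Metric.isBounded_ball hFd.diffContOnCl
    · intro z hz
      rw [frontier_ball (0 : ℂ) one_ne_zero, mem_sphere_zero_iff_norm] at hz
      rw [hFn]
      apply hunit _ _ _ hy
      rw [norm_smul, hz, hu, one_mul]
    · rw [closure_ball (0 : ℂ) one_ne_zero, mem_closedBall_zero_iff]
      exact hz₀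
  rw [hFn, ← hxu] at hmax
  exact hmax

/-- the estimate from below for the second component -/
lemma radius_ge_right [Nontrivial Y]
    (B : ContinuousMultilinearMap ℂ (fun _ : Fin k => X × Y) (X × Y)) (p : X × Y)
    (hp : ‖p‖ ≤ 1) : polyIndex k Y * ‖(B (fun _ => p)).2‖ ≤ polyRadius B := by
  let s : (X × Y) →L[ℂ] (Y × X) := (ContinuousLinearMap.snd ℂ X Y).prod (ContinuousLinearMap.fst ℂ X Y)
  let s' : (Y × X) →L[ℂ] (X × Y) := (ContinuousLinearMap.snd ℂ Y X).prod (ContinuousLinearMap.fst ℂ Y X)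
  have hs : ∀ q, ‖s q‖ = ‖q‖ := by
    rintro ⟨x, y⟩
    change ‖((y, x) : Y × X)‖ = _
    simp [Prod.norm_def, max_comm]
  have hs' : ∀ q, ‖s' q‖ = ‖q‖ := by
    rintro ⟨x, y⟩
    change ‖((y, x) : X × Y)‖ = _
    simp [Prod.norm_def, max_comm]
  have hss : ∀ q, s' (s q) = q := fun q => rfl
  have hss' : ∀ q, s (s' q) = q := fun q => rfl
  let C : ContinuousMultilinearMap ℂ (fun _ : Fin k => Y × X) (Y × X) :=
    s.compContinuousMultilinearMap (B.compContinuousLinearMap (fun _ => s'))
  have hC : ∀ q, C (fun _ => q) = s (B (fun _ => s' q)) := fun q => rfl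
  have h1 : polyRadius C ≤ polyRadius B := by
    apply polyRadius_le _ _ (polyRadius_nonneg B)
    intro q g hq hg hgq
    rw [hC]
    have hn : ‖g.comp s‖ = 1 := by
      apply le_antisymm
      · refine ContinuousLinearMap.opNorm_le_bound _ zero_le_one ?_
        intro v
        calc ‖g (s v)‖ ≤ ‖g‖ * ‖s v‖ := g.le_opNorm _
          _ = 1 * ‖v‖ := by rw [hg, hs]
      · have h3 := (g.comp s).le_opNorm (s' q)
        rw [hs', hq, mul_one] at h3
        have h4 : (g.comp s) (s' q) = 1 := by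
          change g (s (s' q)) = 1
          rw [hss', hgq]
        rwa [h4, norm_one] at h3
    exact le_polyRadius B (s' q) (g.comp s) (by rw [hs', hq]) hn (by
      change g (s (s' q)) = 1
      rw [hss', hgq])
  have h2 := radius_ge_left C (s p) (by rw [hs]; exact hp)
  rw [hC, hss] at h2
  exact h2.trans h1

/-- The polynomial numerical index of the sum of two complex spaces with the maximum norm is the
minimum of the two indices. -/
theorem index_prod [Nontrivial X] [Nontrivial Y] (hk : k ≠ 0) :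
    polyIndex k (X × Y) = min (polyIndex k X) (polyIndex k Y) := by
  apply le_antisymm
  · exact le_min (index_prod_le_left hk) ((index_prod_comm hk).trans (index_prod_le_left hk))
  · apply le_index
    intro B
    have hc : 0 ≤ min (polyIndex k X) (polyIndex k Y) := le_min index_nonneg index_nonneg
    rcases hc.eq_or_lt with h0 | h0
    · rw [← h0, zero_mul]; exact polyRadius_nonneg B
    · rw [mul_comm, ← le_div_iff₀ h0]
      apply polyNorm_le
      intro p hp
      rw [Prod.norm_def]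
      apply max_le
      · rw [le_div_iff₀ h0, mul_comm]
        exact (mul_le_mul_of_nonneg_right (min_le_left _ _) (norm_nonneg _)).trans
          (radius_ge_left B p hp)
      · rw [le_div_iff₀ h0, mul_comm]
        exact (mul_le_mul_of_nonneg_right (min_le_right _ _) (norm_nonneg _)).trans
          (radius_ge_right B p hp)

end Sum

/-- the scalar field has index one -/
theorem index_scalar (k : ℕ) : polyIndex k ℂ = 1 := by
  apply le_antisymm (index_le_one k)
  apply le_index
  intro A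
  rw [one_mul]
  apply polyNorm_le
  intro c hc
  have h1 : A (fun _ => c) = c ^ k • A (fun _ => 1) := by
    have := A.map_smul_univ (fun _ => c) (fun _ => (1 : ℂ))
    simpa using this
  have h2 := le_polyRadius A 1 (ContinuousLinearMap.id ℂ ℂ) norm_one (by simp) rfl
  rw [h1, norm_smul, norm_pow]
  calc ‖c‖ ^ k * ‖A (fun _ => 1)‖ ≤ 1 * ‖A (fun _ => 1)‖ := by
        gcongr
        exact pow_le_one₀ (norm_nonneg _) hc
    _ ≤ polyRadius A := by rw [one_mul]; exact h2

/-- every value is attained on a two-dimensional space -/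
theorem two_dim (k : ℕ) (hk : 2 ≤ k) (r : ℝ)
    (hr : r ∈ Set.Icc ((k : ℝ) ^ ((k : ℝ) / (1 - (k : ℝ)))) 1) :
    ∃ (X : Type) (_ : NormedAddCommGroup X) (_ : NormedSpace ℂ X),
      FiniteDimensional ℂ X ∧ Module.finrank ℂ X = 2 ∧ polyIndex k X = r := by
  obtain ⟨n, rfl⟩ : ∃ n, k = n + 2 := ⟨k - 2, by omega⟩
  have hm : n + 1 ≠ 0 := Nat.succ_ne_zero n
  have ha := one_le_a0 (n + 1)
  have hapos : 0 < a0 (n + 1) ^ (n + 2) := by positivity
  rw [value_pow] at hr
  obtain ⟨hr1, hr2⟩ := hr
  have hstart : polyIndex (n + 2) (Vt n 0) ≤ (a0 (n + 1) ^ (n + 2))⁻¹ := by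
    have h1 := index_mul_le (extremal n)
    have h2 := extremal_norm n
    have h3 := extremal_radius n
    have h4 := index_nonneg (X := Vt n 0) (k := n + 2)
    rw [← one_div, le_div_iff₀ hapos]
    calc polyIndex (n + 2) (Vt n 0) * a0 (n + 1) ^ (n + 2) ≤
          polyIndex (n + 2) (Vt n 0) * polyNorm (extremal n) := by gcongr
      _ ≤ 1 := h1.trans h3
  have hivt := intermediate_value_Icc (show (0 : ℝ) ≤ Real.pi / 2 by positivity)
    (index_path_continuous n).continuousOn
  obtain ⟨θ, -, hθ⟩ := hivt ⟨hstart.trans hr1, by rw [index_end]; exact hr2⟩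
  refine ⟨Vt n θ, inferInstance, inferInstance, inferInstance, ?_, hθ⟩
  have : Module.finrank ℂ (Vt n θ) = Module.finrank ℂ (ℂ × ℂ) :=
    LinearEquiv.finrank_eq (toPair n θ)
  rw [this]
  simp

/-- one-dimensional spaces have index one -/
theorem one_dim (k : ℕ) (X : Type) [NormedAddCommGroup X] [NormedSpace ℂ X]
    (hX : Module.finrank ℂ X = 1) : polyIndex k X = 1 := by
  have : Nontrivial X := Module.nontrivial_of_finrank_pos (R := ℂ) (by omega)
  apply le_antisymm (index_le_one k)
  apply le_index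
  intro A
  rw [one_mul]
  obtain ⟨u, hu⟩ : ∃ u : X, ‖u‖ = 1 := by
    obtain ⟨v, hv⟩ := exists_ne (0 : X)
    refine ⟨((‖v‖⁻¹ : ℝ) : ℂ) • v, ?_⟩
    rw [norm_smul, Complex.norm_real, norm_inv, norm_norm, inv_mul_cancel₀ (norm_ne_zero_iff.2 hv)]
  have hu0 : u ≠ 0 := by
    rintro rfl
    simp at hu
  have hspan := (finrank_eq_one_iff_of_nonzero' u hu0).1 hX
  obtain ⟨f, hf, hfu⟩ := exists_dual_vector ℂ u (by rw [hu]; norm_num)
  rw [hu] at hfu
  have hfu' : f u = 1 := by simpa using hfu
  have hnorm : ∀ v : X, ‖v‖ = ‖f v‖ := by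
    intro v
    obtain ⟨c, rfl⟩ := hspan v
    rw [map_smul, hfu', norm_smul, hu, smul_eq_mul, norm_mul, norm_one]
  apply polyNorm_le
  intro x hx
  obtain ⟨c, rfl⟩ := hspan x
  rw [norm_smul, hu, mul_one] at hx
  have h1 : A (fun _ => c • u) = c ^ k • A (fun _ => u) := by
    have := A.map_smul_univ (fun _ => c) (fun _ => u)
    simpa using this
  have h2 := le_polyRadius A u f hu hf hfu'
  rw [h1, norm_smul, norm_pow, hnorm (A fun _ => u)]
  calc ‖c‖ ^ k * ‖f (A fun _ => u)‖ ≤ 1 * ‖f (A fun _ => u)‖ := by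
        gcongr
        exact pow_le_one₀ (norm_nonneg _) hx
    _ ≤ polyRadius A := by rw [one_mul]; exact h2

/-- The set of all values of the polynomial numerical index of order `k` on complex normed spaces
of finite dimension `d`. -/
def dimRange (k d : ℕ) : Set ℝ :=
  {r : ℝ | ∃ (X : Type) (_ : NormedAddCommGroup X) (_ : NormedSpace ℂ X),
    FiniteDimensional ℂ X ∧ Module.finrank ℂ X = d ∧ r = polyIndex k X}

/-- The set of all values of the polynomial numerical index of order `k` on the spaces `X × Y`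
(maximum norm), where `X` is a two-dimensional complex normed space and `Y` is fixed. -/
def sumRange (k : ℕ) (Y : Type) [NormedAddCommGroup Y] [NormedSpace ℂ Y] : Set ℝ :=
  {r : ℝ | ∃ (X : Type) (_ : NormedAddCommGroup X) (_ : NormedSpace ℂ X),
    FiniteDimensional ℂ X ∧ Module.finrank ℂ X = 2 ∧ r = polyIndex k (X × Y)}

/-- every value is attained in every dimension at least two -/
theorem every_dim (k : ℕ) (hk : 2 ≤ k) (r : ℝ)
    (hr : r ∈ Set.Icc ((k : ℝ) ^ ((k : ℝ) / (1 - (k : ℝ)))) 1) (d : ℕ) (hd : 2 ≤ d) :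
    r ∈ dimRange k d := by
  induction d, hd using Nat.le_induction with
  | base =>
    obtain ⟨X, i1, i2, h1, h2, h3⟩ := two_dim k hk r hr
    exact ⟨X, i1, i2, h1, h2, h3.symm⟩
  | succ d hd ih =>
    obtain ⟨X, i1, i2, h1, h2, h3⟩ := ih
    have : Nontrivial X := Module.nontrivial_of_finrank_pos (R := ℂ) (by omega)
    refine ⟨X × ℂ, inferInstance, inferInstance, inferInstance, ?_, ?_⟩
    · rw [Module.finrank_prod, h2]
      simp
    · rw [index_prod (by omega), index_scalar, h3]
      exact (min_eq_left (index_le_one k)).symm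

theorem lower (k : ℕ) (hk : 2 ≤ k) (X : Type) [NormedAddCommGroup X] [NormedSpace ℂ X]
    [Nontrivial X] : (k : ℝ) ^ ((k : ℝ) / (1 - (k : ℝ))) ≤ polyIndex k X := by
  obtain ⟨n, rfl⟩ : ∃ n, k = n + 2 := ⟨k - 2, by omega⟩
  have hm : n + 1 ≠ 0 := Nat.succ_ne_zero n
  have ha := one_le_a0 (n + 1)
  rw [value_pow]
  apply index_ge (n := n + 1) hm _ (by positivity)
  rw [inv_pow, ← pow_mul, mul_comm (n + 2), pow_mul, a0_pow hm]
  exact inv_mul_cancel₀ (by positivity)

/-- The complex part: for every `k ≥ 2` the values of the `k`-th polynomial numerical index on the nonzero complex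
Banach spaces fill exactly the interval `[k ^ (k / (1 - k)), 1]`, and so do already the values on
the spaces of any fixed finite dimension `d ≥ 2` (in dimension one the only value is `1`). The index
of a sum with the maximum norm is the minimum of the two indices, and for a fixed nonzero complex
space `Y` the indices of the spaces `X × Y` with `X` two-dimensional fill exactly the interval from
`k ^ (k / (1 - k))` to the index of `Y`. -/
theorem complex_part (k : ℕ) (hk : 2 ≤ k) :
    complexRange k = Set.Icc ((k : ℝ) ^ ((k : ℝ) / (1 - (k : ℝ)))) 1 ∧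
    dimRange k 1 = {1} ∧
    (∀ d : ℕ, 2 ≤ d → dimRange k d = Set.Icc ((k : ℝ) ^ ((k : ℝ) / (1 - (k : ℝ)))) 1) ∧
    (∀ (X Y : Type) [NormedAddCommGroup X] [NormedSpace ℂ X] [Nontrivial X]
      [NormedAddCommGroup Y] [NormedSpace ℂ Y] [Nontrivial Y],
      polyIndex k (X × Y) = min (polyIndex k X) (polyIndex k Y)) ∧
    ∀ (Y : Type) [NormedAddCommGroup Y] [NormedSpace ℂ Y] [Nontrivial Y],
      sumRange k Y = Set.Icc ((k : ℝ) ^ ((k : ℝ) / (1 - (k : ℝ)))) (polyIndex k Y) := by
  refine ⟨ComplexRange.result k hk, ?_, ?_, ?_, ?_⟩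
  · ext r
    constructor
    · rintro ⟨X, i1, i2, _, h2, rfl⟩
      exact one_dim k X h2
    · rintro rfl
      exact ⟨ℂ, inferInstance, inferInstance, inferInstance, by simp, (index_scalar k).symm⟩
  · intro d hd
    ext r
    constructor
    · rintro ⟨X, i1, i2, _, h2, rfl⟩
      have : Nontrivial X := Module.nontrivial_of_finrank_pos (R := ℂ) (by omega)
      exact ⟨lower k hk X, index_le_one k⟩
    · intro hr
      exact every_dim k hk r hr d hd
  · intro X Y _ _ _ _ _ _
    exact index_prod (by omega)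
  · intro Y _ _ _
    ext r
    constructor
    · rintro ⟨X, i1, i2, _, h2, rfl⟩
      have : Nontrivial X := Module.nontrivial_of_finrank_pos (R := ℂ) (by omega)
      refine ⟨lower k hk (X × Y), ?_⟩
      rw [index_prod (by omega)]
      exact min_le_right _ _
    · rintro ⟨hr1, hr2⟩
      obtain ⟨X, i1, i2, h1, h2, h3⟩ := two_dim k hk r ⟨hr1, hr2.trans (index_le_one k)⟩
      have : Nontrivial X := Module.nontrivial_of_finrank_pos (R := ℂ) (by omega)
      refine ⟨X, i1, i2, h1, h2, ?_⟩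
      rw [index_prod (by omega), h3]
      exact (min_eq_left hr2).symm

/-- The set of all values of the polynomial numerical index of order `k` on the real Banach spaces
that are isomorphic to `X`, i.e. on `X` with an equivalent norm. -/
def renormRange (k : ℕ) (X : Type) [NormedAddCommGroup X] [NormedSpace ℝ X] : Set ℝ :=
  {r : ℝ | ∃ (Y : Type) (_ : NormedAddCommGroup Y) (_ : NormedSpace ℝ Y),
    CompleteSpace Y ∧ Nonempty (X ≃L[ℝ] Y) ∧ r = RealRange.polyIndex k Y}

section Real

open Pool.Agent.W646.PN Pool.Agent.Helper184.Gur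

/-- the indices of equivalent norms form an interval -/
theorem renorm_path (k : ℕ) (hk : k ≠ 0) (X Y : Type) [NormedAddCommGroup X] [NormedSpace ℝ X]
    [NormedAddCommGroup Y] [NormedSpace ℝ Y] [CompleteSpace X] [CompleteSpace Y]
    [Nontrivial X] [Nontrivial Y] (L : X ≃L[ℝ] Y) (r : ℝ)
    (h1 : Pool.Agent.W646.PN.polyIndex k Y ≤ r) (h2 : r ≤ Pool.Agent.W646.PN.polyIndex k X) :
    r ∈ renormRange k X := by
  have hc := Pool.Agent.W15.PN.index_path_continuous L hk
  have e0 : ∀ x, ‖Pool.Agent.W15.PN.toX L 0 x‖ = ‖x‖ := by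
    intro x
    rw [Pool.Agent.W15.PN.Vt_norm]
    simp
  have e1 : ∀ x, ‖((Pool.Agent.W15.PN.toX L 1).trans L.toLinearEquiv) x‖ = ‖x‖ := by
    intro x
    rw [Pool.Agent.W15.PN.Vt_norm]
    simp
  have h3 : Pool.Agent.W646.PN.polyIndex k X ≤
      Pool.Agent.W646.PN.polyIndex k (Pool.Agent.W15.PN.Vt L 0) := by
    apply Pool.Agent.W15.PN.index_iso_le hk (Pool.Agent.W15.PN.toX L 0).symm
    intro x
    have := e0 ((Pool.Agent.W15.PN.toX L 0).symm x)
    rw [LinearEquiv.apply_symm_apply] at this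
    exact this.symm
  have h4 : Pool.Agent.W646.PN.polyIndex k (Pool.Agent.W15.PN.Vt L 1) ≤
      Pool.Agent.W646.PN.polyIndex k Y :=
    Pool.Agent.W15.PN.index_iso_le hk ((Pool.Agent.W15.PN.toX L 1).trans L.toLinearEquiv) e1
  obtain ⟨t, ht⟩ := mem_range_of_exists_le_of_exists_ge hc ⟨1, h4.trans h1⟩ ⟨0, h2.trans h3⟩
  have g2 : ∀ y, ‖(Pool.Agent.W15.PN.toX L t).symm y‖ ≤
      (|1 - t| + |t| * Pool.Agent.W15.PN.kap L) * ‖y‖ :=
    fun y => Pool.Agent.W15.PN.pathMap_le L t y
  have g1 : ∀ x, ‖Pool.Agent.W15.PN.toX L t x‖ ≤ Pool.Agent.W15.PN.kap L * ‖x‖ :=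
    fun x => Pool.Agent.W15.PN.pathMap_ge L t (Pool.Agent.W15.PN.toX L t x)
  let e : Pool.Agent.W15.PN.Vt L t ≃L[ℝ] X :=
    (Pool.Agent.W15.PN.toX L t).toContinuousLinearEquivOfBounds (Pool.Agent.W15.PN.kap L)
      (|1 - t| + |t| * Pool.Agent.W15.PN.kap L) g1 g2
  exact ⟨Pool.Agent.W15.PN.Vt L t, inferInstance, inferInstance,
    Pool.Agent.W15.PN.Vt_complete L t, ⟨e.symm⟩, ht.symm⟩

/-- biorthogonal functionals -/
theorem biorth (X : Type) [NormedAddCommGroup X] [NormedSpace ℝ X]
    (h : 1 < Module.rank ℝ X) : ∃ (f₀ f₁ : X →L[ℝ] ℝ) (x₀ x₁ : X),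
    f₀ x₀ = 1 ∧ f₀ x₁ = 0 ∧ f₁ x₀ = 0 ∧ f₁ x₁ = 1 := by
  have : Nontrivial X := by
    rw [← rank_pos_iff_nontrivial (R := ℝ)]
    exact lt_trans zero_lt_one h
  obtain ⟨x₀, hx₀⟩ := exists_ne (0 : X)
  obtain ⟨x₁, hli⟩ := exists_linearIndependent_pair_of_one_lt_rank h hx₀
  let b := Module.Basis.span hli
  have key : ∀ i : Fin 2, ∃ f : X →L[ℝ] ℝ, ∀ j : Fin 2, f (![x₀, x₁] j) = if j = i then 1 else 0 := by
    intro i
    have hfin : FiniteDimensional ℝ (Submodule.span ℝ (Set.range ![x₀, x₁])) :=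
      FiniteDimensional.span_of_finite ℝ (Set.finite_range _)
    obtain ⟨g, hg, -⟩ := exists_extension_norm_eq (Submodule.span ℝ (Set.range ![x₀, x₁]))
      (LinearMap.toContinuousLinearMap (b.coord i))
    refine ⟨g, fun j => ?_⟩
    have h1 : ((b j : Submodule.span ℝ (Set.range ![x₀, x₁])) : X) = ![x₀, x₁] j := by
      simp only [b]
      rw [Module.Basis.span_apply hli j]
    have h2 := hg (b j)
    rw [h1] at h2
    rw [h2]
    change b.coord i (b j) = _
    rw [Module.Basis.coord_apply, Module.Basis.repr_self, Finsupp.single_apply]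
  obtain ⟨f₀, h0⟩ := key 0
  obtain ⟨f₁, h1⟩ := key 1
  have a0 := h0 0
  have a1 := h0 1
  have b0 := h1 0
  have b1 := h1 1
  simp at a0 a1 b0 b1
  exact ⟨f₀, f₁, x₀, x₁, a0, a1, b0, b1⟩

/-- the index zero is attained by an equivalent norm -/
theorem renorm_zero (k : ℕ) (hk : 2 ≤ k) (X : Type) [NormedAddCommGroup X] [NormedSpace ℝ X]
    [CompleteSpace X] (h : 1 < Module.rank ℝ X) : (0 : ℝ) ∈ renormRange k X := by
  obtain ⟨f₀, f₁, x₀, x₁, h00, h01, h10, h11⟩ := biorth X h
  obtain ⟨Y, i1, i2, hc, hn, hL, hY⟩ :=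
    Pool.Agent.W391.PN.Zero.main X f₀ f₁ x₀ x₁ h00 h01 h10 h11 k hk
  exact ⟨Y, i1, i2, hc, hL, hY.symm⟩

theorem renorm_interval (k : ℕ) (hk : 2 ≤ k) (X : Type) [NormedAddCommGroup X]
    [NormedSpace ℝ X] [CompleteSpace X] (h : 1 < Module.rank ℝ X) (r : ℝ)
    (hr : r ∈ renormRange k X) : Set.Icc 0 r ⊆ renormRange k X := by
  obtain ⟨Y, i1, i2, hc, ⟨L⟩, rfl⟩ := hr
  rintro s ⟨hs0, hs1⟩
  have hn : Nontrivial X := by
    rw [← rank_pos_iff_nontrivial (R := ℝ)]
    exact lt_trans zero_lt_one h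
  have hnY : Nontrivial Y := L.toEquiv.symm.nontrivial
  obtain ⟨Z, j1, j2, hcZ, ⟨L'⟩, hZ⟩ := renorm_zero k hk X h
  have hnZ : Nontrivial Z := L'.toEquiv.symm.nontrivial
  have hZ' : Pool.Agent.W646.PN.polyIndex k Z ≤ s := le_of_eq_of_le hZ.symm hs0
  obtain ⟨V, v1, v2, hcV, ⟨L''⟩, hV⟩ := renorm_path k (by omega) Y Z (L.symm.trans L') s hZ' hs1
  exact ⟨V, v1, v2, hcV, ⟨L.trans L''⟩, hV⟩

end Real

/-- Real spaces: for every `k ≥ 2` the polynomial numerical indices of order `k` of the nonzero real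
Banach spaces are exactly the numbers of `[0, 1]`, and all of them are taken, for every `k ≥ 2`, by
equivalent norms of one single Banach space `G`. More generally, for every real Banach space `X` of
dimension at least two the indices of the equivalent norms of `X` form an interval with minimum
`0`. Complex spaces: for every `k ≥ 2` the indices of order `k` of the nonzero complex Banach spaces
fill exactly `[k ^ (k / (1 - k)), 1]`, and so do already the indices of the spaces of any fixed
finite dimension `d ≥ 2` (in dimension one the only value is `1`); the index of a sum with the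
maximum norm is the minimum of the two indices, and for a fixed nonzero complex space `Y` the indices
of the spaces `X × Y` with `X` two-dimensional fill exactly the interval from `k ^ (k / (1 - k))` to
the index of `Y`. -/
theorem result :
    (∀ k : ℕ, 2 ≤ k → RealRange.realRange k = Set.Icc 0 1) ∧
    (∃ (G : Type) (_ : NormedAddCommGroup G) (_ : NormedSpace ℝ G), CompleteSpace G ∧
      ∀ k : ℕ, 2 ≤ k → renormRange k G = Set.Icc 0 1) ∧
    (∀ k : ℕ, 2 ≤ k → ∀ (X : Type) [NormedAddCommGroup X] [NormedSpace ℝ X] [CompleteSpace X],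
      1 < Module.rank ℝ X → (0 : ℝ) ∈ renormRange k X ∧ renormRange k X ⊆ Set.Icc 0 1 ∧
        ∀ r ∈ renormRange k X, Set.Icc 0 r ⊆ renormRange k X) ∧
    ∀ k : ℕ, 2 ≤ k →
      complexRange k = Set.Icc ((k : ℝ) ^ ((k : ℝ) / (1 - (k : ℝ)))) 1 ∧
      dimRange k 1 = {1} ∧
      (∀ d : ℕ, 2 ≤ d → dimRange k d = Set.Icc ((k : ℝ) ^ ((k : ℝ) / (1 - (k : ℝ)))) 1) ∧
      (∀ (X Y : Type) [NormedAddCommGroup X] [NormedSpace ℂ X] [Nontrivial X]
        [NormedAddCommGroup Y] [NormedSpace ℂ Y] [Nontrivial Y],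
        polyIndex k (X × Y) = min (polyIndex k X) (polyIndex k Y)) ∧
      ∀ (Y : Type) [NormedAddCommGroup Y] [NormedSpace ℂ Y] [Nontrivial Y],
        sumRange k Y = Set.Icc ((k : ℝ) ^ ((k : ℝ) / (1 - (k : ℝ)))) (polyIndex k Y) := by
  have hsub : ∀ k : ℕ, ∀ (X : Type) [NormedAddCommGroup X] [NormedSpace ℝ X] [Nontrivial X],
      renormRange k X ⊆ Set.Icc 0 1 := by
    intro k X _ _ _
    rintro r ⟨Y, i1, i2, _, ⟨L⟩, rfl⟩
    have hnY : Nontrivial Y := L.toEquiv.symm.nontrivial
    exact ⟨Pool.Agent.W646.PN.index_nonneg, Pool.Agent.W646.PN.index_le_one k⟩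
  have hnt : ∀ (X : Type) [NormedAddCommGroup X] [NormedSpace ℝ X],
      1 < Module.rank ℝ X → Nontrivial X := by
    intro X _ _ h
    rw [← rank_pos_iff_nontrivial (R := ℝ)]
    exact lt_trans zero_lt_one h
  refine ⟨fun k hk => RealRange.result k hk, ?_, ?_, fun k hk => complex_part k hk⟩
  · have hn : Nontrivial Pool.Agent.Helper184.Gur.GX :=
      Pool.Agent.W646.PN.nontrivial_of_isG Pool.Agent.Helper184.Gur.isG
    refine ⟨Pool.Agent.Helper184.Gur.GX, inferInstance, inferInstance, inferInstance, ?_⟩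
    intro k hk
    apply Set.Subset.antisymm (hsub k _)
    have hrank : 1 < Module.rank ℝ Pool.Agent.Helper184.Gur.GX :=
      Pool.Agent.Helper184.Gur.rank_gt
    have h1 : (1 : ℝ) ∈ renormRange k Pool.Agent.Helper184.Gur.GX :=
      ⟨Pool.Agent.Helper184.Gur.GX, inferInstance, inferInstance, inferInstance,
        ⟨ContinuousLinearEquiv.refl ℝ _⟩, (Pool.Agent.W646.PN.index_GX k).symm⟩
    exact renorm_interval k hk _ hrank 1 h1
  · intro k hk X _ _ _ h
    have := hnt X h
    exact ⟨renorm_zero k hk X h, hsub k X, fun r hr => renorm_interval k hk X h r hr⟩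

end Pool.Agent.Results.MP_046d9d_an.DimensionsAndRenormings
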